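import Pool.Agent.Helper7.U.UF
import Pool.Agent.Helper7.Generate
import Pool.Agent.Helper7.Irred

/-!
Rational bilinear forms and rational endomorphisms.
-/

namespace Pool.Agent.Helper36

open Module NumberField Pool.Agent.Helper7

/-- Rational bilinear forms are given by rational endomorphisms. -/
theorem exists_repr {κ : Type} [Fintype κ] [DecidableEq κ] {ϖ : ℂ} (P : PData κ ϖ)
    (β : (κ → ℂ) →ₗ[ℂ] (κ → ℂ) →ₗ[ℂ] ℂ) (hβ : ∀ u ∈ P.Q, ∀ v ∈ P.Q, ∃ q : ℚ, β u v = q) :
    ∃ j : Module.End ℂ (κ → ℂ), (∀ v ∈ P.Q, j v ∈ P.Q) ∧ ∀ u v, P.ψ u (j v) = ϖ * β u v := by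
  classical
  choose q hq using fun p p' : P.ι => P.hψQ (P.bB p) (P.basis_mem p) (P.bB p') (P.basis_mem p')
  choose s hs using fun p p' : P.ι => hβ (P.bB p) (P.basis_mem p) (P.bB p') (P.basis_mem p')
  obtain ⟨M, hM⟩ : ∃ M : Matrix P.ι P.ι ℚ, ∀ p p', M p p' = q p p' := ⟨Matrix.of q, fun _ _ => rfl⟩
  have hdet : M.det ≠ 0 := by
    intro h0
    have h1 : (M.map (algebraMap ℚ ℂ)).det = 0 := by
      rw [← RingHom.mapMatrix_apply, ← RingHom.map_det, h0, map_zero]
    obtain ⟨v, hv0, hv⟩ := Matrix.exists_mulVec_eq_zero_iff.mpr h1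
    apply hv0
    have h2 : ∑ p, v p • P.bB p = 0 := by
      apply P.hψnd
      intro u
      rw [P.hψalt, neg_eq_zero]
      have h3 : (P.ψ.flip (∑ p, v p • P.bB p)) = 0 := by
        apply P.bB.ext
        intro p'
        rw [LinearMap.flip_apply, map_sum, LinearMap.zero_apply]
        have h4 := congrFun hv p'
        rw [Matrix.mulVec, dotProduct, Pi.zero_apply] at h4
        have h5 : ∑ p, P.ψ (P.bB p') (v p • P.bB p) = ϖ * ∑ p, M.map (algebraMap ℚ ℂ) p' p * v p := by
          rw [Finset.mul_sum]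
          refine Finset.sum_congr rfl fun p _ => ?_
          rw [map_smul, smul_eq_mul, hq, Matrix.map_apply, hM]
          show v p * (ϖ * (q p' p : ℂ)) = ϖ * ((q p' p : ℂ) * v p)
          ring
        rw [h5, h4, mul_zero]
      have h6 := congrArg (fun f => f u) h3
      exact h6
    funext p
    have h3 := congrArg (fun w => P.bB.repr w p) h2
    simp only [map_sum, map_smul, map_zero, Finsupp.coe_finsetSum, Finset.sum_apply,
      Finsupp.smul_apply, Basis.repr_self, Finsupp.single_apply, smul_eq_mul, mul_ite, mul_one,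
      mul_zero, Finset.sum_ite_eq', Finset.mem_univ, if_true, Finsupp.zero_apply] at h3
    exact h3
  have hMi : ∀ p p'', ∑ p', (M p p' : ℂ) * ((M⁻¹ p' p'' : ℚ) : ℂ) = if p = p'' then 1 else 0 := by
    intro p p''
    have h1 := Matrix.mul_nonsing_inv M (isUnit_iff_ne_zero.mpr hdet)
    have h2 := congrFun (congrFun h1 p) p''
    rw [Matrix.mul_apply, Matrix.one_apply] at h2
    have h3 := congrArg (fun x : ℚ => (x : ℂ)) h2
    push_cast at h3
    rw [h3]
    split_ifs <;> simp
  let c : P.ι → P.ι → ℚ := fun p q' => ∑ p', M⁻¹ p p' * s p' q'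
  let j : Module.End ℂ (κ → ℂ) := P.bB.constr ℂ (fun q' => ∑ p, (c p q' : ℂ) • P.bB p)
  have hj : ∀ q', j (P.bB q') = ∑ p, (c p q' : ℂ) • P.bB p := fun q' => Basis.constr_basis _ _ _ _
  refine ⟨j, ?_, ?_⟩
  · intro v hv
    unfold PData.Q at hv
    induction hv using Submodule.span_induction with
    | mem x hx =>
      obtain ⟨q', rfl⟩ := hx
      rw [hj]
      exact Submodule.sum_mem _ fun p _ => P.rat_smul_mem _ _ (P.basis_mem p)
    | zero => rw [map_zero]; exact Submodule.zero_mem _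
    | add x y _ _ hx hy => rw [map_add]; exact Submodule.add_mem _ hx hy
    | smul a x _ hx =>
      have h1 : a • x = (a : ℂ) • x := by
        rw [← algebraMap_smul ℂ a x]; rfl
      rw [h1, map_smul]
      exact P.rat_smul_mem _ _ hx
  · intro u v
    have h1 : P.ψ.compl₂ j = ϖ • β := by
      refine P.bB.ext fun p'' => P.bB.ext fun q' => ?_
      rw [LinearMap.compl₂_apply, hj, map_sum, LinearMap.smul_apply, LinearMap.smul_apply,
        smul_eq_mul, hs]
      have h2 : ∀ p, P.ψ (P.bB p'') ((c p q' : ℂ) • P.bB p) =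
          ϖ * ∑ p', (M p'' p : ℂ) * ((M⁻¹ p p' : ℚ) : ℂ) * (s p' q' : ℂ) := by
        intro p
        rw [map_smul, smul_eq_mul, hq, hM]
        simp only [c]
        push_cast
        rw [Finset.sum_mul, Finset.mul_sum]
        refine Finset.sum_congr rfl fun p' _ => ?_
        ring
      simp only [h2]
      rw [← Finset.mul_sum, Finset.sum_comm]
      congr 1
      have h3 : ∀ p', ∑ p, (M p'' p : ℂ) * ((M⁻¹ p p' : ℚ) : ℂ) * (s p' q' : ℂ) =
          if p'' = p' then (s p' q' : ℂ) else 0 := by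
        intro p'
        rw [← Finset.sum_mul, hMi]
        split_ifs <;> simp
      simp only [h3]
      rw [Finset.sum_ite_eq, if_pos (Finset.mem_univ _)]
    have h2 := congrArg (fun f => f u v) h1
    exact h2

end Pool.Agent.Helper36
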