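import Pool.Agent.Helper7.AF.Defs
import Pool.Agent.Helper7.U.MainU
import Pool.Agent.Helper36.AF.Repr

/-!
Pure and mixed places in rank two (module M34 for all abelian varieties of dimension at most four).
-/

namespace Pool.Agent.Helper36

open Module NumberField Pool.Agent.Helper7 Pool.Agent.GPC
open scoped ComplexConjugate

set_option linter.unusedSectionVars false

/-- the action as ring homomorphism -/
noncomputable def hmRho {A : AbVar} {K : Type} [Field K] [NumberField K] [IsCMField K]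
    {ρ : K → A.H1 → A.H1} (C : A.IsHermMult K ρ) : K →+* Module.End ℂ A.H1 where
  toFun x := IsLinearMap.mk' _ (C.endo x).linear
  map_one' := LinearMap.ext C.one
  map_mul' x y := LinearMap.ext (C.mul x y)
  map_add' x y := LinearMap.ext (C.add x y)
  map_zero' := LinearMap.ext fun v => by
    have h := C.add 0 0 v
    rw [add_zero] at h
    have h2 : ρ 0 v = 0 := by
      have h3 := congrArg (fun w => w - ρ 0 v) h
      simp only [sub_self, add_sub_cancel_right] at h3
      exact h3.symm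
    exact h2

/-- the factor attached to a Hermitian multiplication -/
theorem nonempty_UFh (A : AbVar) (K : Type) [Field K] [NumberField K] [IsCMField K]
    (ρ : K → A.H1 → A.H1) (C : A.IsHermMult K ρ) (r : ℕ) (hr : finrank ℚ K * r = 2 * A.g) :
    ∃ F : UF (pData A) K r, (∀ x v, F.ρ x v = ρ x v) ∧ ∀ x, F.cc x = cmConj K x := by
  have hQ : ∀ x, ∀ v ∈ (pData A).Q, hmRho C x v ∈ (pData A).Q :=
    fun x v hv => (isDRB_of_isEnd A _ (C.endo x)).rat v hv
  obtain ⟨lam, h1, h2, eb, h3⟩ := exists_Kbasis (pData A) (hmRho C) hQ r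
    (by rw [hr, card_index])
  exact ⟨{  ρ := hmRho C
            hρ := fun x => isDRB_of_isEnd A _ (C.endo x)
            cc := cmConj K
            hcc := fun σ x => IsCMField.complexEmbedding_complexConj K σ x
            hros := fun x u v => C.rosati x u v
            hcen := fun f hf hc => C.centralizer f (isEnd_of_isDRB A f hf) (fun x _ v => hc x v)
            hnd := hnd_pData A
            lam := lam
            lam_rat := h1
            gen := h2
            eb := eb
            heb := h3 }, fun x v => rfl, fun x => rfl⟩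

/-- a complex multiplication element which is not real -/
lemma exists_not_real (K : Type) [Field K] [NumberField K] [IsCMField K] :
    ∃ x : K, cmConj K x ≠ x := by
  have σ : K →+* ℂ := Classical.choice (inferInstance : Nonempty (K →+* ℂ))
  by_contra hcon
  push Not at hcon
  apply IsTotallyComplex.complexEmbedding_not_isReal σ
  rw [ComplexEmbedding.isReal_iff]
  ext x
  rw [ComplexEmbedding.conjugate_coe_eq]
  have h1 := IsCMField.complexEmbedding_complexConj K σ x
  have h2 : IsCMField.complexConj K x = x := hcon x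
  rw [h2] at h1
  exact h1.symm

section

variable {A : AbVar} {K : Type} [Field K] [NumberField K] [IsCMField K]
  {ρ : K → A.H1 → A.H1}

/-- Not all places are pure. -/
theorem exists_not_pure (C : A.IsHermMult K ρ) (F : UF (pData A) K 2)
    (hFρ : ∀ x v, F.ρ x v = ρ x v)
    (hM1 : ∀ f : A.H1 → A.H1, IsLinearMap ℂ f → (∀ v, A.IsBetti v → A.IsBetti (f v)) →
      (∀ v, A.IsFil v → A.IsFil (f v)) → ∀ v, A.IsDeRham v → A.IsDeRham (f v)) :
    ∃ σ : K →+* ℂ, ¬ A.IsPureAt ρ σ := by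
  classical
  by_contra hcon
  push Not at hcon
  -- the projector on the first coordinate
  let f : Module.End ℂ A.H1 := F.eb.constr ℂ (fun t => if t.2 = 0 then F.eb t else 0)
  have hf : ∀ σ b, f (F.e σ b) = if b = 0 then F.e σ b else 0 := by
    intro σ b
    exact Basis.constr_basis F.eb ℂ _ (σ, b)
  have hfρ : ∀ x v, f (F.ρ x v) = F.ρ x (f v) := by
    intro x v
    refine F.ext_e (f ∘ₗ F.ρ x) (F.ρ x ∘ₗ f) (fun σ b => ?_) v
    rw [LinearMap.comp_apply, LinearMap.comp_apply, F.rho_e, map_smul, hf]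
    split_ifs
    · rw [F.rho_e]
    · rw [map_zero, smul_zero]
  have hl : ∀ b, f (F.lam b) = if b = 0 then F.lam b else 0 := by
    intro b
    rw [F.sum_e, map_sum]
    simp only [hf]
    split_ifs
    · rfl
    · exact Finset.sum_const_zero
  have hfQ : ∀ v, A.IsBetti v → A.IsBetti (f v) := by
    intro v hv
    rw [← mem_pData_Q] at hv ⊢
    obtain ⟨x, hx⟩ := F.gen v hv
    rw [hx, Fin.sum_univ_two, map_add, hfρ, hfρ, hl, hl, if_pos rfl,
      if_neg (by decide : ¬ (1 : Fin 2) = 0), map_zero, add_zero]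
    exact (F.hρ _).rat _ (F.lam_rat 0)
  have hρend : ∀ x, A.IsEnd (F.ρ x) := fun x => isEnd_of_isDRB A _ (F.hρ x)
  have hFf : F.Comm f := hfρ
  have hfF : ∀ v, A.IsFil v → A.IsFil (f v) := by
    intro v hv
    have h1 : v = ∑ σ, proj F.ρ σ v := by
      rw [← LinearMap.sum_apply, sum_proj]; rfl
    rw [h1, map_sum]
    refine fil_sum A _ _ fun σ => ?_
    have h2 : A.IsFil (proj F.ρ σ v) := proj_fil A F.ρ hρend σ hv
    have hev : ∀ w, ∀ x, ρ x (proj F.ρ σ w) = σ x • proj F.ρ σ w := by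
      intro w x
      rw [← hFρ, ← Module.End.mul_apply, rho_mul_proj, LinearMap.smul_apply]
    rcases hcon σ with h | h
    · rw [hFf.proj]
      exact h _ (hev _)
    · rw [h _ (hev v) h2, map_zero]
      exact fil_zero A
  have hend : A.IsEnd f :=
    { linear := f.isLinear
      betti := hfQ
      deRham := hM1 f f.isLinear hfQ hfF
      hodge := hfF }
  obtain ⟨x, hx⟩ := C.centralizer f hend (fun y _ v => by rw [← hFρ, ← hFρ]; exact hfρ y v)
  have σ : K →+* ℂ := Classical.choice (inferInstance : Nonempty (K →+* ℂ))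
  have h0 := hx (F.e σ 0)
  have h1 := hx (F.e σ 1)
  rw [← hFρ, F.rho_e, hf, if_pos rfl] at h0
  rw [← hFρ, F.rho_e, hf, if_neg (by decide : ¬ (1 : Fin 2) = 0)] at h1
  have e0 : F.e σ 0 ≠ 0 := F.eb.ne_zero _
  have e1 : F.e σ 1 ≠ 0 := F.eb.ne_zero _
  have h2 : σ x = 0 := by
    rcases smul_eq_zero.mp h1.symm with h | h
    · exact h
    · exact absurd h e1
  rw [h2, zero_smul] at h0
  exact e0 h0

/-- Not all places are mixed. -/
theorem exists_pure (C : A.IsHermMult K ρ) (F : UF (pData A) K 2)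
    (hFρ : ∀ x v, F.ρ x v = ρ x v) (hFc : ∀ x, F.cc x = cmConj K x)
    (hM1 : ∀ f : A.H1 → A.H1, IsLinearMap ℂ f → (∀ v, A.IsBetti v → A.IsBetti (f v)) →
      (∀ v, A.IsFil v → A.IsFil (f v)) → ∀ v, A.IsDeRham v → A.IsDeRham (f v)) :
    ∃ σ : K →+* ℂ, A.IsPureAt ρ σ := by
  classical
  by_contra hcon
  push Not at hcon
  have hρend : ∀ x, A.IsEnd (F.ρ x) := fun x => isEnd_of_isDRB A _ (F.hρ x)
  -- the alternating form
  let β : A.H1 →ₗ[ℂ] A.H1 →ₗ[ℂ] ℂ := ∑ σ : K →+* ℂ,
    ((LinearMap.mul ℂ ℂ).compl₁₂ (F.co σ 0) (F.co σ 1) -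
      (LinearMap.mul ℂ ℂ).compl₁₂ (F.co σ 1) (F.co σ 0))
  have hβ : ∀ u v, β u v = ∑ σ, (F.co σ 0 u * F.co σ 1 v - F.co σ 1 u * F.co σ 0 v) := by
    intro u v
    simp only [β, LinearMap.sum_apply, LinearMap.sub_apply, LinearMap.compl₁₂_apply,
      LinearMap.mul_apply']
  have hcoρ : ∀ σ b x v, F.co σ b (F.ρ x v) = σ x * F.co σ b v := by
    intro σ b x v
    refine F.ext_e (F.co σ b ∘ₗ F.ρ x) (σ x • F.co σ b) (fun τ a => ?_) v
    rw [LinearMap.comp_apply, F.rho_e, map_smul, LinearMap.smul_apply, smul_eq_mul, smul_eq_mul,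
      F.co_e]
    split_ifs with h
    · rw [h.1]
    · rw [mul_zero, mul_zero]
  have hcol : ∀ σ b a, F.co σ b (F.lam a) = if b = a then 1 else 0 := by
    intro σ b a
    rw [F.sum_e, map_sum, Finset.sum_eq_single σ]
    · rw [F.co_e]
      by_cases h : b = a
      · rw [if_pos ⟨rfl, h⟩, if_pos h]
      · rw [if_neg (fun h' => h h'.2), if_neg h]
    · intro τ _ hτ
      rw [F.co_e, if_neg (fun h' => hτ h'.1.symm)]
    · intro h; exact absurd (Finset.mem_univ _) h
  have hcoQ : ∀ (x : Fin 2 → K) σ b, F.co σ b (∑ a, F.ρ (x a) (F.lam a)) = σ (x b) := by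
    intro x σ b
    rw [map_sum, Finset.sum_eq_single b]
    · rw [hcoρ, hcol, if_pos rfl, mul_one]
    · intro a _ ha
      rw [hcoρ, hcol, if_neg (Ne.symm ha), mul_zero]
    · intro h; exact absurd (Finset.mem_univ _) h
  have hβQ : ∀ u ∈ (pData A).Q, ∀ v ∈ (pData A).Q, ∃ q : ℚ, β u v = q := by
    intro u hu v hv
    obtain ⟨x, rfl⟩ := F.gen u hu
    obtain ⟨y, rfl⟩ := F.gen v hv
    refine ⟨Algebra.trace ℚ K (x 0 * y 1 - x 1 * y 0), ?_⟩
    rw [hβ]
    have h1 := trace_eq_sum_embeddings (K := ℚ) (L := K) ℂ (x := x 0 * y 1 - x 1 * y 0)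
    have h2 : ∑ σ : K →ₐ[ℚ] ℂ, σ (x 0 * y 1 - x 1 * y 0) =
        ∑ σ : K →+* ℂ, σ (x 0 * y 1 - x 1 * y 0) :=
      Fintype.sum_equiv (RingHom.equivRatAlgHom K ℂ).symm _ _ (fun σ => rfl)
    rw [h2] at h1
    simp only [hcoQ]
    rw [show ((Algebra.trace ℚ K (x 0 * y 1 - x 1 * y 0) : ℚ) : ℂ) =
      algebraMap ℚ ℂ (Algebra.trace ℚ K (x 0 * y 1 - x 1 * y 0)) from rfl, h1]
    refine Finset.sum_congr rfl fun σ _ => ?_
    rw [map_sub, map_mul, map_mul]
  obtain ⟨j, hjQ, hj⟩ := exists_repr (pData A) β hβQ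
  -- the filtration is isotropic
  have hiso : ∀ u v, A.IsFil u → A.IsFil v → β u v = 0 := by
    intro u v hu hv
    rw [hβ]
    refine Finset.sum_eq_zero fun σ _ => ?_
    have hu' : A.IsFil (proj F.ρ σ u) := proj_fil A F.ρ hρend σ hu
    have hv' : A.IsFil (proj F.ρ σ v) := proj_fil A F.ρ hρend σ hv
    rw [F.proj_eq, Fin.sum_univ_two] at hu' hv'
    by_contra hd
    apply hcon σ
    left
    intro w hw
    have hw' : proj F.ρ σ w = w := (eigen_iff F σ w).mp (fun x => by rw [hFρ]; exact hw x)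
    obtain ⟨a, ha⟩ : ∃ a, a = F.co σ 0 u := ⟨_, rfl⟩
    obtain ⟨b, hb⟩ : ∃ b, b = F.co σ 1 u := ⟨_, rfl⟩
    obtain ⟨c, hc⟩ : ∃ c, c = F.co σ 0 v := ⟨_, rfl⟩
    obtain ⟨d, hd'⟩ : ∃ d, d = F.co σ 1 v := ⟨_, rfl⟩
    rw [← ha, ← hb] at hu'
    rw [← hc, ← hd'] at hv'
    rw [← ha, ← hb, ← hc, ← hd'] at hd
    have e0 : A.IsFil (F.e σ 0) := by
      have h1 := fil_add A (fil_smul A (d / (a * d - b * c)) hu')
        (fil_smul A (-b / (a * d - b * c)) hv')
      have h2 : (d / (a * d - b * c)) • (a • F.e σ 0 + b • F.e σ 1) +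
          (-b / (a * d - b * c)) • (c • F.e σ 0 + d • F.e σ 1) = F.e σ 0 := by
        have h3 : (d / (a * d - b * c)) • (a • F.e σ 0 + b • F.e σ 1) +
            (-b / (a * d - b * c)) • (c • F.e σ 0 + d • F.e σ 1) =
            ((a * d - b * c) / (a * d - b * c)) • F.e σ 0 := by
          rw [smul_add, smul_add, smul_smul, smul_smul, smul_smul, smul_smul]
          module
        rw [h3, div_self hd, one_smul]
      rwa [h2] at h1
    have e1 : A.IsFil (F.e σ 1) := by
      have h1 := fil_add A (fil_smul A (-c / (a * d - b * c)) hu')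
        (fil_smul A (a / (a * d - b * c)) hv')
      have h2 : (-c / (a * d - b * c)) • (a • F.e σ 0 + b • F.e σ 1) +
          (a / (a * d - b * c)) • (c • F.e σ 0 + d • F.e σ 1) = F.e σ 1 := by
        have h3 : (-c / (a * d - b * c)) • (a • F.e σ 0 + b • F.e σ 1) +
            (a / (a * d - b * c)) • (c • F.e σ 0 + d • F.e σ 1) =
            ((a * d - b * c) / (a * d - b * c)) • F.e σ 1 := by
          rw [smul_add, smul_add, smul_smul, smul_smul, smul_smul, smul_smul]
          module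
        rw [h3, div_self hd, one_smul]
      rwa [h2] at h1
    rw [← hw', F.proj_eq, Fin.sum_univ_two]
    exact fil_add A (fil_smul A _ e0) (fil_smul A _ e1)
  have hjF : ∀ v, A.IsFil v → A.IsFil (j v) := by
    intro v hv a
    have h1 : A.IsFil (Pi.single (Sum.inr a) 1 : A.H1) := by
      intro b
      exact Pi.single_eq_of_ne (by simp) _
    have h2 := hj (Pi.single (Sum.inr a) 1 : A.H1) v
    rw [hiso _ _ h1 hv, mul_zero, pData_ψ] at h2
    unfold AbVar.pol at h2
    have h3 : ∑ x : Fin A.g, ((Pi.single (Sum.inr a) 1 : A.H1) (Sum.inl x) * j v (Sum.inr x) -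
        j v (Sum.inl x) * (Pi.single (Sum.inr a) 1 : A.H1) (Sum.inr x)) = - j v (Sum.inl a) := by
      rw [Finset.sum_eq_single a]
      · simp
      · intro b _ hb
        have : (Sum.inr b : Fin A.g ⊕ Fin A.g) ≠ Sum.inr a := fun h => hb (Sum.inr.inj h)
        simp [this]
      · intro h; exact absurd (Finset.mem_univ _) h
    rw [h3] at h2
    exact neg_eq_zero.mp h2
  have hjB : ∀ v, A.IsBetti v → A.IsBetti (j v) := by
    intro v hv
    rw [← mem_pData_Q] at hv ⊢
    exact hjQ v hv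
  have hend : A.IsEnd j :=
    { linear := j.isLinear
      betti := hjB
      deRham := hM1 j j.isLinear hjB hjF
      hodge := hjF }
  have hjρ : ∀ x v, j (F.ρ x v) = F.ρ (F.cc x) (j v) := by
    intro x v
    rw [← sub_eq_zero]
    apply (pData A).hψnd
    intro u
    rw [(pData A).hψalt, neg_eq_zero, map_sub, sub_eq_zero, hj, ← F.hros, hj]
    congr 1
    rw [hβ, hβ]
    refine Finset.sum_congr rfl fun σ _ => ?_
    rw [hcoρ, hcoρ, hcoρ, hcoρ]
    ring
  obtain ⟨x, hx⟩ := C.centralizer j hend (fun y hy v => by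
    rw [← hFρ, ← hFρ, hjρ, hFc, hy])
  obtain ⟨y, hy⟩ := exists_not_real K
  have h1 : ∀ v, F.ρ ((cmConj K y - y) * x) v = 0 := by
    intro v
    have h2 := hjρ y v
    rw [hx, hx, ← hFρ, ← hFρ, hFc, ← Module.End.mul_apply, ← Module.End.mul_apply, ← map_mul,
      ← map_mul] at h2
    rw [sub_mul, map_sub, LinearMap.sub_apply, ← h2, mul_comm x y, sub_self]
  have σ : K →+* ℂ := Classical.choice (inferInstance : Nonempty (K →+* ℂ))
  have e0 : F.e σ 0 ≠ 0 := F.eb.ne_zero _
  have h2 : (cmConj K y - y) * x = 0 := by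
    have h3 := h1 (F.e σ 0)
    rw [F.rho_e] at h3
    rcases smul_eq_zero.mp h3 with h | h
    · exact (map_eq_zero σ).mp h
    · exact absurd h e0
  have hx0 : x = 0 := (mul_eq_zero.mp h2).resolve_left (sub_ne_zero.mpr hy)
  have h3 := hj (F.e σ 0) (F.e σ 1)
  have h4 : j (F.e σ 1) = 0 := by
    rw [hx, hx0, ← hFρ, F.rho_e, map_zero, zero_smul]
  have h5 : β (F.e σ 0) (F.e σ 1) = 1 := by
    rw [hβ, Finset.sum_eq_single σ]
    · rw [F.co_e, F.co_e, F.co_e, F.co_e]
      simp
    · intro τ _ hτ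
      rw [F.co_e, F.co_e, F.co_e, F.co_e, if_neg (fun h => hτ h.1), if_neg (fun h => hτ h.1),
        if_neg (fun h => hτ h.1), if_neg (fun h => hτ h.1)]
      simp
    · intro h; exact absurd (Finset.mem_univ _) h
  rw [h4, map_zero, h5, mul_one] at h3
  exact Complex.two_pi_I_ne_zero h3.symm

end

/-- M34, from rigidity: in rank two over `K` there are pure and mixed places. -/
theorem herm_mixed_of (A : AbVar) (K : Type) [Field K] [NumberField K] [IsCMField K]
    (ρ : K → A.H1 → A.H1) (C : A.IsHermMult K ρ) (hdeg : finrank ℚ K = A.g)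
    (hM1 : ∀ f : A.H1 → A.H1, IsLinearMap ℂ f → (∀ v, A.IsBetti v → A.IsBetti (f v)) →
      (∀ v, A.IsFil v → A.IsFil (f v)) → ∀ v, A.IsDeRham v → A.IsDeRham (f v)) :
    (∃ σ : K →+* ℂ, A.IsPureAt ρ σ) ∧ ∃ σ : K →+* ℂ, ¬ A.IsPureAt ρ σ := by
  obtain ⟨F, h1, h2⟩ := nonempty_UFh A K ρ C 2 (by rw [hdeg, mul_comm])
  exact ⟨exists_pure C F h1 h2 hM1, exists_not_pure C F h1 hM1⟩

end Pool.Agent.Helper36
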